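import Pool.Agent.H356R3.NS.Final2

set_option autoImplicit false

/-!
Data with global smooth periodic solutions of the Navier-Stokes equations are dense in the critical
Fourier-Besov norms `FB^{-1}_{1,r}`, `r > 2`, and every `C^1` divergence-free periodic field `u0` of any size
is within `(1024 π ν L + ε)^{1/2}` of such data in the norm of `FB^{-1}_{1,2}` (the space of this scale in
which the equations are well posed), `L` the Lei-Lin norm of `u0`. Any finite set of Fourier modes of `u0`
is kept fixed, the data are trigonometric polynomials for which statement (B) of the problem holds, and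
the solution is within `ε` of its mean from time `ε` on.
-/

open MeasureTheory Set

namespace Pool.Agent.Results.MP_6bf1e5_an.CriticalDensity

open Pool.Agent.H356R3.NS

theorem result (ν : ℝ) (hν : 0 < ν) (r : ℝ) (hr : 2 < r) (u0 : R3 → R3) (hu : ContDiff ℝ 1 u0)
    (hp : ∀ x j, u0 (x + Pi.single j 1) = u0 x) (hd : ∀ x, ∑ i, pd i (fun y => u0 y i) x = 0)
    (K0 : ℕ) (ε : ℝ) (hε : 0 < ε) :
    ∃ (b : (Fin 3 → ℤ) → Fin 3 → ℂ) (F : Finset (Fin 3 → ℤ)),
      (∀ k : Fin 3 → ℤ, (∀ i, |k i| ≤ K0) → fc (trig b F) k = fc u0 k) ∧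
      critNorm r (fun k => fc (trig b F) k - fc u0 k) ≤ ENNReal.ofReal ε ∧
      critNorm 2 (fun k => fc (trig b F) k - fc u0 k) ^ 2
        ≤ ENNReal.ofReal (1024 * Real.pi * ν * (leiLin (fc u0)).toReal + ε) ∧
      ∃ u p, AdmissiblePeriodic ν (trig b F) u p ∧
        ∀ t, ε ≤ t → ∀ x i, |u t x i - ∫ y in Icc (0 : R3) 1, u0 y i| ≤ ε :=
  final2 hν hr hu hp hd K0 hε

end Pool.Agent.Results.MP_6bf1e5_an.CriticalDensity
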