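import Pool.Agent.H319R3.NS.J

set_option autoImplicit false

open MeasureTheory Set H319NS

/-- Let `(u,p)` be a smooth `ℤ³`-periodic solution of the unforced Navier–Stokes equations with
viscosity `ν > 0` on `ℝ³ × (a,b)`, let `a < t0 < b`, and write `ω = curl u`, `E(t) = ∫ |ω(t)|²`
(over the unit cube).  Let `0 ≤ θ < 1/2` and let `g ≥ 0` be integrable on `[t0,b)`.  Suppose that at
each time `s ∈ [t0,b)` there are a smooth periodic vector field `w` and a smooth periodic function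
`κ`, bounded together with their first derivatives by a number `K`, and numbers `λ ∈ [-1,1]`, `m`,
`n ≥ 0`, `Ω` (all depending on `s` in an arbitrary way) such that
`m²/(2ν) + 2n ≤ θ/(b-s) + g(s) log (e + E(s))`, `(1+K)⁴ Ω² ≤ g(s) (e + E(s)) log (e + E(s))` and,
at every point `x` with `|ω(x,s)|² > Ω²`,
`ω·(ω·∇)w − (u−w)·(ω·∇)ω + κ (u−w)·∇(|ω|²/2) + (|ω|²/2)(∇κ·(u−w) − κ div w)`
is at most `m |ω| (|∇ω|² − λ tr((∇ω)²))^{1/2} + n |ω|²`.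
Then the enstrophy `E` is bounded on `[t0,b)`. -/
theorem Pool.Agent.Results.MP_6bf1e5_an.GeometricSerrin.result
    {ν a b : ℝ} (hν : 0 < ν) {u : Fin 3 → V → ℝ} {p : V → ℝ} (h : IsNS ν a b u p)
    {t0 θ : ℝ} (h0 : a < t0) (h01 : t0 < b) (hθ : 0 ≤ θ) (hθ2 : θ < 1 / 2) {g : ℝ → ℝ}
    (hg : IntegrableOn g (Ico t0 b)) (hg0 : ∀ s ∈ Ico t0 b, 0 ≤ g s)
    (hc : ∀ s ∈ Ico t0 b, ∃ (w : Fin 3 → (Fin 3 → ℝ) → ℝ) (κ : (Fin 3 → ℝ) → ℝ)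
      (lam m n K Ω : ℝ), (∀ i, SmoothPer (w i)) ∧ SmoothPer κ ∧ |lam| ≤ 1 ∧ 0 ≤ n ∧ 0 ≤ K ∧
      (∀ x i j, |w i x| ≤ K ∧ |sd j (w i) x| ≤ K ∧ |κ x| ≤ K ∧ |sd j κ x| ≤ K) ∧
      m ^ 2 / (2 * ν) + 2 * n ≤ θ / (b - s)
        + g s * Real.log (Real.exp 1 + ∫ x in Icc (0 : Fin 3 → ℝ) 1, SS u (x, s)) ∧
      (1 + K) ^ 4 * Ω ^ 2 ≤ g s * ((Real.exp 1 + ∫ x in Icc (0 : Fin 3 → ℝ) 1, SS u (x, s))
        * Real.log (Real.exp 1 + ∫ x in Icc (0 : Fin 3 → ℝ) 1, SS u (x, s))) ∧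
      ∀ x, Ω ^ 2 < SS u (x, s) →
        crit u w κ x s ≤ m * √(SS u (x, s)) * √(GC u lam (x, s)) + n * SS u (x, s)) :
    ∃ C : ℝ, ∀ t ∈ Ico t0 b, ∫ x in Icc (0 : Fin 3 → ℝ) 1, SS u (x, t) ≤ C :=
  main_typeI hν h h0 h01 hθ hθ2 hg hg0 hc
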