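import Pool.Agent.H459R3.NS.Iso

/-!
The Prodi-Serrin criterion for the three-dimensional Navier-Stokes equations on the torus, relative
to comparison fields with a smaller enstrophy production and modulo fields with two-dimensional sets
of frequencies.

Examples of comparison fields `v` (lemmas in `Pool.Agent.H459R3.NS.Iso`):
* `v = 0`, `w = 0`: the classical criterion;
* `v = u`: nothing is required at times at which the enstrophy production is at most
  `θ ν ∫ |Δu|² + γ ∫ |∇u|²` with `θ < 1`;
* `v x = - g_* u x` for an isometry `g` of the torus (a permutation of the coordinates, signs and a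
  shift; `Iso.stretch_push`, `serrin_iso`): only the part `u + g_* u` of the velocity has to be
  controlled, for instance `u x - u (a - x)`, the part which is odd about the point `a / 2`, or
  `u x + u (x + a)`, and the isometry may depend on the time in an arbitrary way;
* a divergence-free `v` whose frequencies contain no non-collinear triad (`stretch_triadfree`);
* a divergence-free eigenfield `v` of the Laplacian (`stretch_eigen`).
Two-dimensional sets of frequencies: finite unions of lattice planes (`dimTwo_planes`), sets which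
meet every line parallel to a coordinate axis at most once (`dimTwo_graph`), and so on.
-/

open MeasureTheory Set H459R3.NS
open scoped ENNReal

set_option autoImplicit false

/-- Let `3 < p ≤ ∞`, `3 / p + 2 / q = 1`, `ν > 0`.

(1) Let `(u, P)` be a smooth periodic solution of the Navier-Stokes equations on `[0, T) × ℝ³` and
let `β ≥ 0` be a function with `∫₀ᵀ β^q < ∞`. If for every time `t ∈ (0, T)` there is an isometry `g`
of the torus (which may depend on `t` in an arbitrary way) such that the `L^p` norm of `u + g_* u`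
over the period cell is at most `β t`, then `u` is bounded on `[0, T) × ℝ³`, so that `T` is not a
blow-up time. An example: `u x - u (a(t) - x)` for arbitrary points `a(t)`.

(2) More generally, let `K ≥ 0`, `κ ≥ 0` and `lam < 1 - κ`.  There is a constant `C` such that the
following holds for all such solutions `(u, P)`.  Let `A ≥ 0` and let `β, γ ≥ 0` be functions with
`∫₀ᵀ β^q < ∞` and `∫₀ᵀ γ < ∞`.  Suppose that for every time `t ∈ (0, T)` there are smooth periodic
fields `v` and `w` such that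
* the enstrophy production of `v` is at most `lam` times that of `u t` plus
  `κ ν ∫ |Δu|² + γ(t) ∫ |∇u|²`,
* the `L²` norms of `∇v`, `Δv` and `∇w` are at most `K` times those of `∇u`, `Δu` and `∇u`,
* the frequencies of `w` lie in a two-dimensional set (with constant `A`),
* the `L^p` norm of `u t - v - w` over the period cell is at most `β t`.
Then `∫ |∇u(t)|² ≤ ∫ |∇u(0)|² · exp (C (∫₀ᵀ β^q + ∫₀ᵀ γ + A ∫ |u(0)|²))` for all `t ∈ [0, T)`, and
`u` is bounded on `[0, T) × ℝ³`. Statement (1) is the case `v = - g_* u`, `w = 0`. -/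
theorem Pool.Agent.Results.MP_6bf1e5_an.TriadSerrin.result
    {p : ℝ≥0∞} (hp : 3 < p) {q : ℝ} (hpq : 3 * (p⁻¹).toReal + 2 / q = 1) {ν : ℝ} (hν : 0 < ν) :
    (∀ (T : ℝ) (u : ℝ → V → V) (P : ℝ → V → ℝ) (β : ℝ → ℝ), IsSol ν T u P →
      (∀ t ∈ Ioo 0 T, 0 ≤ β t) → IntegrableOn (fun t => β t ^ q) (Ioo 0 T) →
      (∀ t ∈ Ioo 0 T, ∃ g : Iso, ∀ i,
        eLpNorm (fun x => u t x i + g.push (u t) x i) p (volume.restrict cube)
          ≤ ENNReal.ofReal (β t)) →
      ∃ M, ∀ t ∈ Ico 0 T, ∀ x i, |u t x i| ≤ M) ∧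
    ∀ K lam κ : ℝ, 0 ≤ K → 0 ≤ κ → κ < 1 - lam →
    ∃ C : ℝ, 0 ≤ C ∧ ∀ (T A : ℝ) (u : ℝ → V → V) (P : ℝ → V → ℝ) (β γ : ℝ → ℝ), IsSol ν T u P →
      0 ≤ A → (∀ t ∈ Ioo 0 T, 0 ≤ β t ∧ 0 ≤ γ t) → IntegrableOn (fun t => β t ^ q) (Ioo 0 T) →
      IntegrableOn γ (Ioo 0 T) →
      (∀ t ∈ Ioo 0 T, ∃ (v w : V → V) (Q : Set K3), SPV v ∧ SPV w ∧ DimTwo A Q ∧
        (∀ i, ∀ k ∉ Q, fr (fun x => w x i) k = 0) ∧
        enstrophy v ≤ K ^ 2 * enstrophy (u t) ∧ palin v ≤ K ^ 2 * palin (u t) ∧
        enstrophy w ≤ K ^ 2 * enstrophy (u t) ∧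
        stretch v ≤ lam * stretch (u t) + κ * (ν * palin (u t)) + γ t * enstrophy (u t) ∧
        ∀ i, eLpNorm (fun x => u t x i - v x i - w x i) p (volume.restrict cube)
          ≤ ENNReal.ofReal (β t)) →
      (∀ t ∈ Ico 0 T, enstrophy (u t) ≤ enstrophy (u 0) * Real.exp
        (C * ((∫ s in Ioo 0 T, β s ^ q) + (∫ s in Ioo 0 T, γ s) + A * energy (u 0)))) ∧
      ∃ M, ∀ t ∈ Ico 0 T, ∀ x i, |u t x i| ≤ M :=
  ⟨fun _ _ _ _ h hβ0 hβ hu => serrin_iso hp hpq hν h hβ0 hβ hu,
    fun _ _ _ hK hκ0 hκ => serrin hp hpq hν hK hκ0 hκ⟩
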